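import Pool.Agent.P8H74.ST.Core

/-!
# The roots modulo primes of almost all integer polynomials: discrepancy of square-root size

The polynomials are `f = X ^ d + c (d - 1) X ^ (d - 1) + ... + c 0` with integral coefficients, `d ≥ 1` arbitrary.
`AlmostAll d A 𝓔`: all the properties `E ∈ 𝓔` hold, with the same constants, at all `n` between `y` and a power of the
height for all but the proportion `y ^ (-A)` of the vectors `c` of a box, and of the vectors `c` obtained from an arbitrary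
one by changing few digits. The result is unconditional.
-/

set_option autoImplicit false

namespace Pool.Agent.Results.MP_d315f4_nt.AlmostAllPolynomials

open Finset

/-- The prime number `p_k`, `p_0 = 2`. -/
noncomputable def prime (k : ℕ) : ℕ := Nat.nth Nat.Prime k

open Classical in
/-- The number of the roots `ν`, `0 ≤ ν < p`, of `X ^ d + z (d - 1) X ^ (d - 1) + ... + z 0` modulo `p` with `u ≤ ν / p < v`. -/
noncomputable def rootsIn (d p : ℕ) (u v : ℝ) (z : Fin d → ZMod p) : ℕ :=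
  ((range p).filter (fun ν : ℕ => (ν : ZMod p) ^ d + ∑ j, z j * (ν : ZMod p) ^ (j : ℕ) = 0 ∧
    u ≤ (ν : ℝ) / p ∧ (ν : ℝ) / p < v)).card

/-- The reduction of the integer vector `c` modulo `p`. -/
def red {d : ℕ} (p : ℕ) (c : Fin d → ℤ) : Fin d → ZMod p := fun j => (c j : ZMod p)

/-- For all weights `w ∈ W` and all intervals `[u, v) ⊂ [0, 1]` the number of the fractions `ν / p` in `[u, v)`, `ν` a root of `f`
modulo `p`, `p` among the first `n` primes, counted with the weights `w`, is `(v - u)` times the sum of the weights, up to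
`(max 1 (∑ w k ^ 2)) ^ (1 / 2) n ^ δ`. -/
def Equidistributed {d : ℕ} (δ : ℝ) (W : Set (ℕ → ℝ)) (n : ℕ) (c : Fin d → ℤ) : Prop :=
  ∀ w ∈ W, ∀ u v : ℝ, 0 ≤ u → u ≤ v → v ≤ 1 →
    |∑ k ∈ range n, w k * (rootsIn d (prime k) u v (red (prime k) c) : ℝ) - (v - u) * ∑ k ∈ range n, w k| ≤
      Real.sqrt (max 1 (∑ k ∈ range n, w k ^ 2)) * (n : ℝ) ^ δ

/-! ### Almost all polynomials -/

/-- The digit number `i` (counted from the right, beginning with `0`) of `n` in base `b`. -/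
def digit (b i n : ℕ) : ℕ := n / b ^ i % b

/-- The number which arises from the number `N` with at most `K` digits in base `b`, if for every `i ∈ S`
the digit number `i` is replaced by `f i`. -/
def change (b K N : ℕ) (f : ℕ → ℕ) (S : Finset ℕ) : ℕ :=
  ∑ i ∈ range K, (if i ∈ S then f i else digit b i N) * b ^ i

open Classical in
/-- The number of the choices of `r l` of `K l` positions for all `l` for which the vector of the numbers obtained by
changing the digits of the `N l` at the chosen positions (according to `f l`) does not have the property `E`. -/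
noncomputable def exceptions {d : ℕ} (b : ℕ) (K r N : Fin d → ℕ) (f : Fin d → ℕ → ℕ) (E : (Fin d → ℕ) → Prop) : ℕ :=
  ((Fintype.piFinset (fun l => powersetCard (r l) (range (K l)))).filter
    (fun S => ¬ E (fun l => change b (K l) (N l) (f l) (S l)))).card

open Classical in
/-- All properties `E n c ∈ 𝓔` hold for almost all coefficient vectors `c`, with the same constants `κ`, `y₀`. First part: `r l` of
the `K l` digits of arbitrary integers `N l` in base `b` are changed (each digit `j` to a prescribed different digit `f l j`), and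
arbitrary integers `t l` are added; `E n c` holds for all `n` with `y ≤ n ≤ exp (κ r l)` for all but the proportion `y ^ (-A)` of the
choices of the positions. Second part: `c` runs through all vectors of a box with sides `2 ^ K`, and `y ≤ n ≤ exp (κ K)`, a power
of the side. -/
def AlmostAll (d A : ℕ) (𝓔 : Set (ℕ → (Fin d → ℤ) → Prop)) : Prop :=
  (∀ b : ℕ, 2 ≤ b → ∃ κ : ℝ, 0 < κ ∧ ∃ y₀ : ℕ, ∀ E ∈ 𝓔, ∀ (K r : Fin d → ℕ) (y : ℕ), (∀ l, 2 * r l ≤ K l) → y₀ ≤ y →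
    ∀ N : Fin d → ℕ, (∀ l, N l < b ^ K l) → ∀ f : Fin d → ℕ → ℕ, (∀ l j, f l j < b ∧ f l j ≠ digit b j (N l)) →
    ∀ t : Fin d → ℤ,
      (exceptions b K r N f (fun m => ∀ n : ℕ, y ≤ n → (∀ l, (n : ℝ) ≤ Real.exp (κ * r l)) →
        E n (fun l => t l + m l)) : ℝ) ≤ 1 / (y : ℝ) ^ A * ∏ l, ((K l).choose (r l) : ℝ)) ∧
  (∃ κ : ℝ, 0 < κ ∧ ∃ y₀ : ℕ, ∀ E ∈ 𝓔, ∀ K y : ℕ, y₀ ≤ y → ∀ t : Fin d → ℤ,
    (((Fintype.piFinset (fun _ : Fin d => range (2 ^ K))).filter (fun m : Fin d → ℕ =>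
      ¬ ∀ n : ℕ, y ≤ n → (n : ℝ) ≤ Real.exp (κ * K) → E n (fun l => t l + m l))).card : ℝ) ≤
        1 / (y : ℝ) ^ A * ((2 : ℝ) ^ K) ^ d)

theorem almostAll_iff (d A : ℕ) (𝓔 : Set (ℕ → (Fin d → ℤ) → Prop)) :
    AlmostAll d A 𝓔 ↔ Pool.Agent.P8H74.ST.AlmostAll d A 𝓔 := Iff.rfl

/-! ### The local mean -/

/-- the number of roots is at most the degree -/
lemma rootsIn_le (d p : ℕ) (hp : p.Prime) (u v : ℝ) (z : Fin d → ZMod p) : rootsIn d p u v z ≤ d := by
  classical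
  haveI : Fact p.Prime := ⟨hp⟩
  set q : Polynomial (ZMod p) := ∑ j, Polynomial.C (z j) * Polynomial.X ^ (j : ℕ) with hq
  have hdeg : q.degree < d := Polynomial.degree_sum_fin_lt z
  have hmon : (Polynomial.X ^ d + q).Monic := Polynomial.monic_X_pow_add hdeg
  have hnd : (Polynomial.X ^ d + q).natDegree = d := by
    rw [Polynomial.natDegree_add_eq_left_of_degree_lt (by rw [Polynomial.degree_X_pow]; exact hdeg), Polynomial.natDegree_X_pow]
  have h1 : rootsIn d p u v z ≤ (Polynomial.X ^ d + q).roots.toFinset.card := by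
    unfold rootsIn
    refine card_le_card_of_injOn (fun ν : ℕ => (ν : ZMod p)) ?_ ?_
    · intro ν hν
      rw [mem_coe, mem_filter] at hν
      show (ν : ZMod p) ∈ (Polynomial.X ^ d + q).roots.toFinset
      rw [Multiset.mem_toFinset, Polynomial.mem_roots hmon.ne_zero, Polynomial.IsRoot.def]
      rw [Polynomial.eval_add, Polynomial.eval_pow, Polynomial.eval_X, hq, Polynomial.eval_finsetSum]
      simpa using hν.2.1
    · intro a ha b hb hab
      rw [mem_coe, mem_filter, mem_range] at ha hb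
      have h2 := (ZMod.natCast_eq_natCast_iff' a b p).1 hab
      rwa [Nat.mod_eq_of_lt ha.1, Nat.mod_eq_of_lt hb.1] at h2
  refine h1.trans ((Multiset.toFinset_card_le _).trans ((Polynomial.card_roots' _).trans ?_))
  rw [hnd]

open Classical in
lemma count_root (d p : ℕ) (hd : 1 ≤ d) [NeZero p] (a : ZMod p) :
    (p : ℝ) * ∑ z : Fin d → ZMod p, (if a ^ d + ∑ j, z j * a ^ (j : ℕ) = 0 then (1 : ℝ) else 0) = (p : ℝ) ^ d := by
  obtain ⟨i₀, hi₀⟩ : ∃ i₀ : Fin d, (i₀ : ℕ) = 0 := ⟨⟨0, by omega⟩, rfl⟩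
  have h1 : ∀ b : ZMod p, ∑ z : Fin d → ZMod p, (if a ^ d + ∑ j, z j * a ^ (j : ℕ) = b then (1 : ℝ) else 0) =
      ∑ z : Fin d → ZMod p, (if a ^ d + ∑ j, z j * a ^ (j : ℕ) = 0 then (1 : ℝ) else 0) := by
    intro b
    refine (Fintype.sum_equiv (Equiv.addRight (Pi.single i₀ b : Fin d → ZMod p)) _ _ (fun z => ?_)).symm
    have h2 : ∑ j, (z + (Pi.single i₀ b : Fin d → ZMod p)) j * a ^ (j : ℕ) = ∑ j, z j * a ^ (j : ℕ) + b := by
      simp only [Pi.add_apply, add_mul, sum_add_distrib]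
      congr 1
      rw [sum_eq_single i₀]
      · rw [Pi.single_eq_same, hi₀, pow_zero, mul_one]
      · intro j _ hj
        rw [Pi.single_eq_of_ne hj, zero_mul]
      · intro h
        exact absurd (mem_univ _) h
    show (if a ^ d + ∑ j, z j * a ^ (j : ℕ) = 0 then (1 : ℝ) else 0) =
      (if a ^ d + ∑ j, (z + (Pi.single i₀ b : Fin d → ZMod p)) j * a ^ (j : ℕ) = b then (1 : ℝ) else 0)
    rw [h2]
    congr 1
    rw [← add_assoc, add_eq_right]
  have h3 : ∑ b : ZMod p, ∑ z : Fin d → ZMod p, (if a ^ d + ∑ j, z j * a ^ (j : ℕ) = b then (1 : ℝ) else 0) =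
      (p : ℝ) ^ d := by
    rw [sum_comm]
    simp [ZMod.card]
  rw [← h3, sum_congr rfl (fun b _ => h1 b), sum_const, card_univ, ZMod.card, nsmul_eq_mul]

open Classical in
lemma rootsIn_sum (d p : ℕ) (u v : ℝ) (z : Fin d → ZMod p) : (rootsIn d p u v z : ℝ) =
    ∑ ν ∈ (range p).filter (fun ν : ℕ => u ≤ (ν : ℝ) / p ∧ (ν : ℝ) / p < v),
      (if (ν : ZMod p) ^ d + ∑ j, z j * (ν : ZMod p) ^ (j : ℕ) = 0 then (1 : ℝ) else 0) := by
  unfold rootsIn
  rw [card_filter, sum_filter]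
  push_cast
  refine sum_congr rfl fun ν _ => ?_
  by_cases h1 : (ν : ZMod p) ^ d + ∑ j, z j * (ν : ZMod p) ^ (j : ℕ) = 0 <;>
    by_cases h2 : u ≤ (ν : ℝ) / p ∧ (ν : ℝ) / p < v <;> simp [h1, h2]

open Classical in
lemma avg_rootsIn (d p : ℕ) (hd : 1 ≤ d) (hp : p.Prime) (u v : ℝ) :
    Pool.Agent.P8H74.ST.avg d p (fun z => (rootsIn d p u v z : ℝ)) =
      (((range p).filter (fun ν : ℕ => u ≤ (ν : ℝ) / p ∧ (ν : ℝ) / p < v)).card : ℝ) / p := by
  haveI : NeZero p := ⟨hp.ne_zero⟩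
  have hp0 : (p : ℝ) ≠ 0 := by exact_mod_cast hp.ne_zero
  have h1 : ∑ m ∈ Fintype.piFinset (fun _ : Fin d => range p), (rootsIn d p u v (fun j => (m j : ZMod p)) : ℝ) =
      ∑ z : Fin d → ZMod p, (rootsIn d p u v z : ℝ) := Pool.Agent.P8H74.ST.sum_box (fun z => (rootsIn d p u v z : ℝ))
  unfold Pool.Agent.P8H74.ST.avg
  rw [h1]
  simp only [rootsIn_sum]
  rw [sum_comm]
  have h2 : ∀ ν ∈ (range p).filter (fun ν : ℕ => u ≤ (ν : ℝ) / p ∧ (ν : ℝ) / p < v),
      ∑ z : Fin d → ZMod p, (if (ν : ZMod p) ^ d + ∑ j, z j * (ν : ZMod p) ^ (j : ℕ) = 0 then (1 : ℝ) else 0) =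
        (p : ℝ) ^ d / p := by
    intro ν _
    rw [eq_div_iff hp0, mul_comm]
    exact count_root d p hd (ν : ZMod p)
  rw [sum_congr rfl h2, sum_const, nsmul_eq_mul]
  have h3 : (p : ℝ) ^ d ≠ 0 := pow_ne_zero _ hp0
  field_simp

open Classical in
lemma card_interval (p : ℕ) (hp : 0 < p) (u v : ℝ) (hu : 0 ≤ u) (huv : u ≤ v) (hv : v ≤ 1) :
    |(((range p).filter (fun ν : ℕ => u ≤ (ν : ℝ) / p ∧ (ν : ℝ) / p < v)).card : ℝ) / p - (v - u)| ≤ 1 / p := by
  have hp0 : (0 : ℝ) < p := by exact_mod_cast hp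
  have h1 : (range p).filter (fun ν : ℕ => u ≤ (ν : ℝ) / p ∧ (ν : ℝ) / p < v) = Ico ⌈u * p⌉₊ ⌈v * p⌉₊ := by
    ext ν
    rw [mem_filter, mem_range, mem_Ico, Nat.ceil_le, Nat.lt_ceil, le_div_iff₀ hp0, div_lt_iff₀ hp0]
    constructor
    · exact fun h => h.2
    · intro h
      refine ⟨?_, h⟩
      have h2 : (ν : ℝ) < p := by nlinarith [h.2]
      exact_mod_cast h2
  rw [h1, Nat.card_Ico]
  have hle : ⌈u * p⌉₊ ≤ ⌈v * p⌉₊ := Nat.ceil_le_ceil (mul_le_mul_of_nonneg_right huv hp0.le)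
  rw [Nat.cast_sub hle]
  have e1 := Nat.le_ceil (u * p)
  have e2 := Nat.ceil_lt_add_one (mul_nonneg hu hp0.le)
  have e3 := Nat.le_ceil (v * p)
  have e4 := Nat.ceil_lt_add_one (mul_nonneg (hu.trans huv) hp0.le)
  rw [abs_le]
  constructor
  · rw [neg_le_sub_iff_le_add, ← add_div, le_div_iff₀ hp0]
    linarith
  · rw [sub_le_iff_le_add, div_le_iff₀ hp0, add_mul, div_mul_cancel₀ _ hp0.ne']
    linarith

lemma rootsIn_mono (d p : ℕ) (u v u' v' : ℝ) (h1 : u' ≤ u) (h2 : v ≤ v') (z : Fin d → ZMod p) :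
    rootsIn d p u v z ≤ rootsIn d p u' v' z := by
  classical
  unfold rootsIn
  refine card_le_card fun ν hν => ?_
  rw [mem_filter] at hν ⊢
  exact ⟨hν.1, hν.2.1, h1.trans hν.2.2.1, hν.2.2.2.trans_le h2⟩

/-- sandwich: from the grid of mesh `1 / n` to all intervals -/
lemma grid {d : ℕ} (n : ℕ) (hn : 1 ≤ n) (w : ℕ → ℝ) (hw : ∀ k, 0 ≤ w k ∧ w k ≤ 1) (c : Fin d → ℤ) (R : ℝ) (hR : 0 ≤ R)
    (h : ∀ i j : ℕ, i ≤ j → j ≤ n → |∑ k ∈ range n, w k * ((rootsIn d (prime k) ((i : ℝ) / n) ((j : ℝ) / n)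
      (red (prime k) c) : ℝ) - ((j : ℝ) / n - (i : ℝ) / n))| ≤ R)
    (u v : ℝ) (hu : 0 ≤ u) (huv : u ≤ v) (hv : v ≤ 1) :
    |∑ k ∈ range n, w k * (rootsIn d (prime k) u v (red (prime k) c) : ℝ) - (v - u) * ∑ k ∈ range n, w k| ≤ R + 2 := by
  have hn0 : (0 : ℝ) < n := by exact_mod_cast (by omega : 0 < n)
  have hWn : ∑ k ∈ range n, w k ≤ n := by
    calc ∑ k ∈ range n, w k ≤ ∑ _k ∈ range n, (1 : ℝ) := sum_le_sum fun k _ => (hw k).2
      _ = n := by simp
  have hW0 : 0 ≤ ∑ k ∈ range n, w k := sum_nonneg fun k _ => (hw k).1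
  have hsplit : ∀ i j : ℕ, ∑ k ∈ range n, w k * ((rootsIn d (prime k) ((i : ℝ) / n) ((j : ℝ) / n)
      (red (prime k) c) : ℝ) - ((j : ℝ) / n - (i : ℝ) / n)) =
      ∑ k ∈ range n, w k * (rootsIn d (prime k) ((i : ℝ) / n) ((j : ℝ) / n) (red (prime k) c) : ℝ) -
        ((j : ℝ) / n - (i : ℝ) / n) * ∑ k ∈ range n, w k := by
    intro i j
    rw [mul_sum, ← sum_sub_distrib]
    exact sum_congr rfl fun k _ => by ring
  have hvn : v * n ≤ n := by nlinarith
  have hun : 0 ≤ u * n := mul_nonneg hu hn0.le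
  have hvn0 : 0 ≤ v * n := mul_nonneg (hu.trans huv) hn0.le
  rw [abs_le]
  constructor
  · -- lower bound: the inner interval
    by_cases hij : ⌈u * n⌉₊ ≤ ⌊v * n⌋₊
    · have hjn : ⌊v * n⌋₊ ≤ n := Nat.floor_le_of_le hvn
      have h1 := (abs_le.1 (h ⌈u * n⌉₊ ⌊v * n⌋₊ hij hjn)).1
      rw [hsplit] at h1
      have e1 : u ≤ (⌈u * n⌉₊ : ℝ) / n := by
        rw [le_div_iff₀ hn0]
        exact Nat.le_ceil _
      have e2 : (⌊v * n⌋₊ : ℝ) / n ≤ v := by
        rw [div_le_iff₀ hn0]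
        exact Nat.floor_le hvn0
      have e3 : (⌈u * n⌉₊ : ℝ) / n ≤ u + 1 / n := by
        rw [div_le_iff₀ hn0, add_mul, div_mul_cancel₀ _ hn0.ne']
        exact (Nat.ceil_lt_add_one hun).le
      have e4 : v - 1 / n ≤ (⌊v * n⌋₊ : ℝ) / n := by
        rw [le_div_iff₀ hn0, sub_mul, div_mul_cancel₀ _ hn0.ne']
        have := Nat.lt_floor_add_one (v * n)
        linarith
      have h2 : ∑ k ∈ range n, w k * (rootsIn d (prime k) ((⌈u * n⌉₊ : ℝ) / n) ((⌊v * n⌋₊ : ℝ) / n) (red (prime k) c) : ℝ) ≤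
          ∑ k ∈ range n, w k * (rootsIn d (prime k) u v (red (prime k) c) : ℝ) := by
        refine sum_le_sum fun k _ => mul_le_mul_of_nonneg_left ?_ (hw k).1
        exact_mod_cast rootsIn_mono d (prime k) _ _ u v e1 e2 _
      have h3 : ((v - u) - ((⌊v * n⌋₊ : ℝ) / n - (⌈u * n⌉₊ : ℝ) / n)) * ∑ k ∈ range n, w k ≤ (2 / n) * n := by
        refine mul_le_mul ?_ hWn hW0 (by positivity)
        have : (2 : ℝ) / n = 1 / n + 1 / n := by ring
        rw [this]
        linarith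
      rw [div_mul_cancel₀ _ hn0.ne'] at h3
      nlinarith
    · have h1 : (v - u) * n ≤ 1 := by
        have e1 : ⌊v * n⌋₊ + 1 ≤ ⌈u * n⌉₊ := by omega
        have e2 := Nat.lt_floor_add_one (v * n)
        have e3 : (⌊v * n⌋₊ : ℝ) + 1 ≤ (⌈u * n⌉₊ : ℝ) := by exact_mod_cast e1
        have e4 := Nat.ceil_lt_add_one hun
        nlinarith
      have h2 : (v - u) * ∑ k ∈ range n, w k ≤ (v - u) * n := mul_le_mul_of_nonneg_left hWn (by linarith)
      have h3 : 0 ≤ ∑ k ∈ range n, w k * (rootsIn d (prime k) u v (red (prime k) c) : ℝ) :=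
        sum_nonneg fun k _ => mul_nonneg (hw k).1 (Nat.cast_nonneg _)
      linarith
  · -- upper bound: the outer interval
    have hij : ⌊u * n⌋₊ ≤ ⌈v * n⌉₊ :=
      (Nat.floor_le_ceil _).trans (Nat.ceil_le_ceil (mul_le_mul_of_nonneg_right huv hn0.le))
    have hjn : ⌈v * n⌉₊ ≤ n := Nat.ceil_le.2 hvn
    have h1 := (abs_le.1 (h ⌊u * n⌋₊ ⌈v * n⌉₊ hij hjn)).2
    rw [hsplit] at h1
    have e1 : (⌊u * n⌋₊ : ℝ) / n ≤ u := by
      rw [div_le_iff₀ hn0]
      exact Nat.floor_le hun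
    have e2 : v ≤ (⌈v * n⌉₊ : ℝ) / n := by
      rw [le_div_iff₀ hn0]
      exact Nat.le_ceil _
    have e3 : u - 1 / n ≤ (⌊u * n⌋₊ : ℝ) / n := by
      rw [le_div_iff₀ hn0, sub_mul, div_mul_cancel₀ _ hn0.ne']
      have := Nat.lt_floor_add_one (u * n)
      linarith
    have e4 : (⌈v * n⌉₊ : ℝ) / n ≤ v + 1 / n := by
      rw [div_le_iff₀ hn0, add_mul, div_mul_cancel₀ _ hn0.ne']
      exact (Nat.ceil_lt_add_one hvn0).le
    have h2 : ∑ k ∈ range n, w k * (rootsIn d (prime k) u v (red (prime k) c) : ℝ) ≤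
        ∑ k ∈ range n, w k * (rootsIn d (prime k) ((⌊u * n⌋₊ : ℝ) / n) ((⌈v * n⌉₊ : ℝ) / n) (red (prime k) c) : ℝ) := by
      refine sum_le_sum fun k _ => mul_le_mul_of_nonneg_left ?_ (hw k).1
      exact_mod_cast rootsIn_mono d (prime k) u v _ _ e1 e2 _
    have h3 : (((⌈v * n⌉₊ : ℝ) / n - (⌊u * n⌋₊ : ℝ) / n) - (v - u)) * ∑ k ∈ range n, w k ≤ (2 / n) * n := by
      refine mul_le_mul ?_ hWn hW0 (by positivity)
      have : (2 : ℝ) / n = 1 / n + 1 / n := by ring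
      rw [this]
      linarith
    rw [div_mul_cancel₀ _ hn0.ne'] at h3
    nlinarith

/-- **Main result.** -/
theorem result (d : ℕ) (hd : 1 ≤ d) (δ : ℝ) (hδ : 0 < δ) (A B : ℕ) :
    AlmostAll d A {E | ∃ W : ℕ → Set (ℕ → ℝ), (∀ n, (W n).Finite ∧ (W n).ncard ≤ n ^ B) ∧
      (∀ n, ∀ w ∈ W n, ∀ k, 0 ≤ w k ∧ w k ≤ 1) ∧ E = fun n c => Equidistributed δ (W n) n c} := by
  classical
  rw [almostAll_iff]
  have hcore := Pool.Agent.P8H74.ST.core d 1 hd le_rfl (δ / 2) (by positivity) A (B + 4) (d + 1) 1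
    (by have : (0 : ℝ) ≤ d := Nat.cast_nonneg _
        linarith) zero_le_one
  have hev : ∀ᶠ n : ℕ in Filter.atTop, (3 : ℝ) ≤ (n : ℝ) ^ (δ / 2) :=
    tendsto_natCast_atTop_atTop.eventually ((tendsto_rpow_atTop (by positivity)).eventually (Filter.eventually_ge_atTop _))
  obtain ⟨n₀, hn₀⟩ := Filter.eventually_atTop.1 hev
  refine hcore.mono (n₀ + 2) ?_
  rintro F ⟨W, hWf, hWb, rfl⟩
  refine ⟨Pool.Agent.P8H74.ST.CoreProp (δ / 2) ((ℕ → ℝ) × (ℝ × ℝ))
    (fun n => (hWf n).1.toFinset ×ˢ ((range (n + 1)).image (fun i : ℕ => (i : ℝ) / n) ×ˢ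
      (range (n + 1)).image (fun i : ℕ => (i : ℝ) / n)))
    (fun l => if (∀ k, |l.1 k| ≤ 1) then l.1 else 0)
    (fun l _ p z => if 0 ≤ l.2.1 ∧ l.2.1 ≤ l.2.2 ∧ l.2.2 ≤ 1 then (rootsIn d p l.2.1 l.2.2 z : ℝ) - (l.2.2 - l.2.1) else 0),
    ⟨_, _, _, _, ?_, ?_, ?_, ?_, rfl⟩, ?_⟩
  · intro n hn
    rw [card_product, card_product, ← Set.ncard_eq_toFinset_card _ (hWf n).1, pow_add]
    apply Nat.mul_le_mul (hWf n).2
    have h1 : ((range (n + 1)).image (fun i : ℕ => (i : ℝ) / n)).card ≤ n ^ 2 := by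
      refine card_image_le.trans ?_
      rw [card_range]
      nlinarith
    calc _ ≤ n ^ 2 * n ^ 2 := Nat.mul_le_mul h1 h1
      _ = n ^ 4 := by ring
  · intro n l _ k
    show |(if (∀ k, |l.1 k| ≤ 1) then l.1 else 0) k| ≤ 1
    split_ifs with hl
    · exact hl k
    · simp
  · intro l i p hp z
    show |(if 0 ≤ l.2.1 ∧ l.2.1 ≤ l.2.2 ∧ l.2.2 ≤ 1 then (rootsIn d p l.2.1 l.2.2 z : ℝ) - (l.2.2 - l.2.1) else 0)| ≤ (d : ℝ) + 1
    split_ifs with hl
    · have h1 : (rootsIn d p l.2.1 l.2.2 z : ℝ) ≤ d := by exact_mod_cast rootsIn_le d p hp _ _ z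
      have h2 : (0 : ℝ) ≤ (rootsIn d p l.2.1 l.2.2 z : ℝ) := Nat.cast_nonneg _
      rw [abs_le]
      constructor <;> linarith [hl.1, hl.2.1, hl.2.2]
    · rw [abs_zero]
      positivity
  · intro n l _
    refine ⟨0, fun p hp => ?_⟩
    show |Pool.Agent.P8H74.ST.avg d p (fun z : Fin d → ZMod p => if 0 ≤ l.2.1 ∧ l.2.1 ≤ l.2.2 ∧ l.2.2 ≤ 1 then
      (rootsIn d p l.2.1 l.2.2 z : ℝ) - (l.2.2 - l.2.1) else 0)| ≤ 1 / Real.sqrt p
    have hp0 : (0 : ℝ) < p := by exact_mod_cast hp.pos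
    have hp1 : (1 : ℝ) ≤ p := by exact_mod_cast hp.one_lt.le
    by_cases hl : 0 ≤ l.2.1 ∧ l.2.1 ≤ l.2.2 ∧ l.2.2 ≤ 1
    · have h1 : (fun z : Fin d → ZMod p => if 0 ≤ l.2.1 ∧ l.2.1 ≤ l.2.2 ∧ l.2.2 ≤ 1 then
          (rootsIn d p l.2.1 l.2.2 z : ℝ) - (l.2.2 - l.2.1) else 0) =
          fun z => (rootsIn d p l.2.1 l.2.2 z : ℝ) - (l.2.2 - l.2.1) := by
        funext z
        rw [if_pos hl]
      have h2 : Pool.Agent.P8H74.ST.avg d p (fun z : Fin d → ZMod p => (rootsIn d p l.2.1 l.2.2 z : ℝ) - (l.2.2 - l.2.1)) =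
          Pool.Agent.P8H74.ST.avg d p (fun z : Fin d → ZMod p => (rootsIn d p l.2.1 l.2.2 z : ℝ)) - (l.2.2 - l.2.1) := by
        unfold Pool.Agent.P8H74.ST.avg
        rw [sum_sub_distrib, sum_const, Fintype.card_piFinset]
        have h3 : ((p : ℝ) ^ d) ≠ 0 := by positivity
        simp only [card_range, prod_const, card_univ, Fintype.card_fin, nsmul_eq_mul]
        push_cast
        field_simp
      rw [h1, h2, avg_rootsIn d p hd hp]
      refine (card_interval p hp.pos _ _ hl.1 hl.2.1 hl.2.2).trans ?_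
      refine div_le_div_of_nonneg_left zero_le_one (Real.sqrt_pos.2 hp0) ?_
      rw [Real.sqrt_le_left hp0.le]
      nlinarith
    · have h1 : (fun z : Fin d → ZMod p => if 0 ≤ l.2.1 ∧ l.2.1 ≤ l.2.2 ∧ l.2.2 ≤ 1 then
          (rootsIn d p l.2.1 l.2.2 z : ℝ) - (l.2.2 - l.2.1) else 0) = fun _ => 0 := by
        funext z
        rw [if_neg hl]
      rw [h1]
      unfold Pool.Agent.P8H74.ST.avg
      rw [sum_const_zero, zero_div, abs_zero]
      positivity
  · intro n c hn hE w hw u v hu huv hv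
    have hn1 : 1 ≤ n := by omega
    have hn0 : (0 : ℝ) < n := by exact_mod_cast (by omega : 0 < n)
    have hwb := hWb n w hw
    have hwa : ∀ k, |w k| ≤ 1 := fun k => abs_le.2 ⟨by linarith [(hwb k).1], (hwb k).2⟩
    set R : ℝ := Real.sqrt (max 1 (∑ k ∈ range n, w k ^ 2)) with hR
    have hR1 : 1 ≤ R := by
      rw [hR]
      exact Real.one_le_sqrt.2 (le_max_left _ _)
    have hpos : (0 : ℝ) < (n : ℝ) ^ (δ / 2) := by positivity
    have hgrid : ∀ i j : ℕ, i ≤ j → j ≤ n → |∑ k ∈ range n, w k * ((rootsIn d (prime k) ((i : ℝ) / n) ((j : ℝ) / n)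
        (red (prime k) c) : ℝ) - ((j : ℝ) / n - (i : ℝ) / n))| ≤ R * (n : ℝ) ^ (δ / 2) := by
      intro i j hij hjn
      have h1 := hE (by omega) (w, ((i : ℝ) / n, (j : ℝ) / n)) (by
        rw [mem_product, Set.Finite.mem_toFinset, mem_product, mem_image, mem_image]
        exact ⟨hw, ⟨i, mem_range.2 (by omega), rfl⟩, ⟨j, mem_range.2 (by omega), rfl⟩⟩)
      have hcond : (0 : ℝ) ≤ (i : ℝ) / n ∧ (i : ℝ) / n ≤ (j : ℝ) / n ∧ (j : ℝ) / n ≤ 1 := by
        refine ⟨by positivity, ?_, ?_⟩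
        · have : (i : ℝ) ≤ j := by exact_mod_cast hij
          exact div_le_div_of_nonneg_right this hn0.le
        · rw [div_le_one hn0]
          exact_mod_cast hjn
      simp only [hwa, implies_true, if_true, hcond, and_self, Fin.prod_univ_one] at h1
      exact h1
    have h2 := grid n hn1 w hwb c (R * (n : ℝ) ^ (δ / 2)) (by positivity) hgrid u v hu huv hv
    refine h2.trans ?_
    have h3 := hn₀ n (by omega)
    have h4 : (n : ℝ) ^ δ = (n : ℝ) ^ (δ / 2) * (n : ℝ) ^ (δ / 2) := by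
      rw [← Real.rpow_add hn0]
      congr 1
      ring
    rw [h4]
    have h5 : (1 : ℝ) ≤ R * (n : ℝ) ^ (δ / 2) := by nlinarith
    nlinarith

end Pool.Agent.Results.MP_d315f4_nt.AlmostAllPolynomials
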